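import Pool.Agent.H8.DS.TarA

namespace DS

open Set

namespace ATTaux

variable {S B : Type}

theorem Go_rep (Y : Sys S B) (w : List B) (y : S × ℝ) (h : Y.Go w y y) (k : ℕ) :
    Y.Go (List.replicate k w).flatten y y := by
  induction k with
  | zero => simp [Sys.Go]
  | succ k ih =>
    rw [List.replicate_succ, List.flatten_cons, Sys.Go_append]
    exact ⟨y, h, ih⟩

theorem len_rep (w : List B) (k : ℕ) : (List.replicate k w).flatten.length = k * w.length := by
  induction k with
  | zero => simp
  | succ k ih => rw [List.replicate_succ, List.flatten_cons, List.length_append, ih]; ring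

theorem wal_rep (Y : Sys S B) (w : List B) (k : ℕ) :
    Y.wal (List.replicate k w).flatten = Y.wal w ^ k := by
  induction k with
  | zero => simp [Sys.wal]
  | succ k ih => rw [List.replicate_succ, List.flatten_cons, Sys.wal_append, ih, pow_succ]

/-- The word of length `l` from time `k` on. -/
def W (b : ℕ → B) : ℕ → ℕ → List B
  | _, 0 => []
  | k, l + 1 => b k :: W b (k + 1) l

theorem W_len (b : ℕ → B) (l k : ℕ) : (W b k l).length = l := by
  induction l generalizing k with
  | zero => rfl
  | succ l ih => simp [W, ih]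

theorem W_go (Y : Sys S B) (b : ℕ → B) (y : ℕ → S × ℝ) (h : ∀ k, Y.Go [b k] (y k) (y (k + 1)))
    (l k : ℕ) : Y.Go (W b k l) (y k) (y (k + l)) := by
  induction l generalizing k with
  | zero => simp [W, Sys.Go]
  | succ l ih =>
    obtain ⟨h1, h2, h3⟩ := h k
    simp only [Sys.Go] at h3
    refine ⟨h1, h2, ?_⟩
    rw [h3]
    have := ih (k + 1)
    have e : k + 1 + l = k + (l + 1) := by ring
    rw [e] at this
    exact this

end ATTaux

open ATTaux in
theorem pf_ATT (h2 : T_ITER) (h3 : T_FIX) : T_ATT := by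
  intro S B _ _ Y mw L ρ br n hC hG y hy
  classical
  choose b hb using hy
  have hW := W_go Y b y hb
  have hWl := W_len b
  have hfin : Finite {w : List B // w.length = n} := (List.finite_length_eq B n).to_subtype
  obtain ⟨k₀, l₀, hne, heq⟩ := Finite.exists_ne_map_eq_of_infinite
    (fun k => (⟨W b k n, hWl n k⟩ : {w : List B // w.length = n}))
  have hex : ∃ k l, k < l ∧ W b k n = W b l n := by
    simp only [Subtype.mk.injEq] at heq
    rcases lt_or_gt_of_ne hne with h | h
    · exact ⟨k₀, l₀, h, heq⟩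
    · exact ⟨l₀, k₀, h, heq.symm⟩
  obtain ⟨k, l, hkl, he⟩ := hex
  obtain ⟨p, rfl⟩ : ∃ p, l = k + p := ⟨l - k, by omega⟩
  have hp : 0 < p := by omega
  set u := W b (k + n) p with hu
  have hul : u.length = p := hWl _ _
  have hune : u ≠ [] := by
    intro h; rw [h] at hul; simp at hul; omega
  have g1 : Y.Go (W b k n) (y k) (y (k + n)) := hW n k
  have g2 : Y.Go u (y (k + n)) (y (k + p + n)) := by
    have := hW p (k + n)
    have e : k + n + p = k + p + n := by ring
    rw [e] at this
    exact this
  have g3 : Y.Go (W b k n) (y (k + p)) (y (k + p + n)) := by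
    rw [he]; exact hW n (k + p)
  obtain ⟨x, hx⟩ := h3 S B Y mw L ρ br n hC hG (W b k n) (hWl _ _) u hune _ _ _ _ g1 g2 g3
  obtain ⟨-, hlt, hit⟩ := h2 S B Y mw L ρ br n hC hG (W b k n) (hWl _ _) u hune _ _ _ _ g1 g2 g3
  set s := (y (k + n)).1 with hs
  -- the points reached by the powers
  have hpow : ∀ j : ℕ, Y.Go (List.replicate j u).flatten (y (k + n)) (y (k + n + j * p)) ∧
      ∃ z', Y.Go (W b k n) z' (y (k + n + j * p)) := by
    intro j
    obtain ⟨y', z', a1, a2⟩ := hit j
    have a3 := hW (j * p) (k + n)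
    have e := Y.Go_det _ _ _ _ _ (by rw [len_rep, hul, hWl]) a1 a3
    rw [← e] at a3
    have e2 := Y.Go_fun _ _ _ _ a1 a3
    rw [e2] at a1 a2
    exact ⟨a1, z', a2⟩
  have hslit : ∀ j : ℕ, (y (k + n + j * p)).1 = s := by
    intro j
    rcases Nat.eq_zero_or_pos j with h | h
    · subst h; simp [hs]
    · obtain ⟨a1, z', a2⟩ := hpow j
      have hne : (List.replicate j u).flatten ≠ [] := by
        intro h'
        have := len_rep u j
        rw [h', hul] at this
        simp only [List.length_nil] at this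
        have : 0 < j * p := Nat.mul_pos h hp
        omega
      exact (h2 S B Y mw L ρ br n hC hG (W b k n) (hWl _ _) _ hne _ _ _ _ g1 a1 a2).1
  have hval : ∀ j : ℕ, (y (k + n + j * p)).2 - x = Y.wal u ^ j * ((y (k + n)).2 - x) := by
    intro j
    have a1 := Y.Go_val _ _ _ (hpow j).1
    have a2 := Y.Go_val _ _ _ (Go_rep Y u (s, x) hx j)
    rw [wal_rep] at a1 a2
    simp only at a2
    linear_combination a1 - a2
  refine ⟨(s, x), ⟨u, hune, hx⟩, ?_⟩
  intro ε hε N
  have hpos := (Y.wal_pos u).le
  have ht : Filter.Tendsto (fun j : ℕ => Y.wal u ^ j * |(y (k + n)).2 - x|) Filter.atTop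
      (nhds 0) := by
    have := (tendsto_pow_atTop_nhds_zero_of_lt_one hpos hlt).mul_const (|(y (k + n)).2 - x|)
    simpa using this
  obtain ⟨j, hj1, hj2⟩ := ((ht.eventually (gt_mem_nhds hε)).and
    (Filter.eventually_ge_atTop N)).exists
  refine ⟨k + n + j * p, by nlinarith, hslit j, ?_⟩
  rw [hval j, abs_mul, abs_of_nonneg (pow_nonneg hpos j)]
  exact hj1

end DS
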