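import Pool.Agent.H8.DS.TarA

namespace DS

open Set

namespace BWDaux

variable {S B : Type}

theorem Go_rep (Y : Sys S B) (w : List B) (y : S × ℝ) (h : Y.Go w y y) (k : ℕ) :
    Y.Go (List.replicate k w).flatten y y := by
  induction k with
  | zero => simp [Sys.Go]
  | succ k ih =>
    rw [List.replicate_succ, List.flatten_cons, Sys.Go_append]
    exact ⟨y, h, ih⟩

theorem len_rep (w : List B) (k : ℕ) : (List.replicate k w).flatten.length = k * w.length := by
  induction k with
  | zero => simp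
  | succ k ih => rw [List.replicate_succ, List.flatten_cons, List.length_append, ih]; ring

/-- The word of length `l` that ends at time `k`. -/
def V (b : ℕ → B) (k : ℕ) : ℕ → List B
  | 0 => []
  | l + 1 => b (k + l) :: V b k l

theorem V_len (b : ℕ → B) (l k : ℕ) : (V b k l).length = l := by
  induction l with
  | zero => rfl
  | succ l ih => simp [V, ih]

theorem V_go (Y : Sys S B) (b : ℕ → B) (z : ℕ → S × ℝ) (h : ∀ k, Y.Go [b k] (z (k + 1)) (z k))
    (l k : ℕ) : Y.Go (V b k l) (z (k + l)) (z k) := by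
  induction l with
  | zero => simp [V, Sys.Go]
  | succ l ih =>
    obtain ⟨h1, h2, h3⟩ := h (k + l)
    simp only [Sys.Go] at h3
    refine ⟨h1, h2, ?_⟩
    change Y.Go (V b k l) (Y.tgt (b (k + l)), Y.al (b (k + l)) * (z (k + l + 1)).2 +
      Y.c (b (k + l))) (z k)
    rw [h3]
    exact ih

/-- If infinitely many `k` have a property that goes down by `p` then a residue class has it. -/
theorem residue (K : Set ℕ) (hK : K.Infinite) (p : ℕ) (hp : 0 < p)
    (hd : ∀ k, k + p ∈ K → k ∈ K) : ∃ r, ∀ i : ℕ, r + i * p ∈ K := by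
  have hi : Infinite K := hK.to_subtype
  obtain ⟨r, hr⟩ := Finite.exists_infinite_fiber (fun k : K => (⟨k.1 % p, Nat.mod_lt _ hp⟩ : Fin p))
  refine ⟨r.1, ?_⟩
  intro i
  have hinf : (Subtype.val '' ((fun k : K => (⟨k.1 % p, Nat.mod_lt _ hp⟩ : Fin p)) ⁻¹' {r})).Infinite :=
    (Set.infinite_coe_iff.1 hr).image (Subtype.val_injective.injOn)
  obtain ⟨m, hm, hgt⟩ := hinf.exists_gt (r.1 + i * p)
  obtain ⟨k, hk, rfl⟩ := hm
  have hk' : k.1 % p = r.1 := by
    have := (mem_singleton_iff.1 (mem_preimage.1 hk))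
    exact congrArg Fin.val this
  have hdown : ∀ j m : ℕ, m + j * p ∈ K → m ∈ K := by
    intro j
    induction j with
    | zero => intro m h; simpa using h
    | succ j ih =>
      intro m h
      apply ih
      apply hd
      have e : m + j * p + p = m + (j + 1) * p := by ring
      rw [e]; exact h
  have e := Nat.mod_add_div k.1 p
  rw [hk'] at e
  have hle : i ≤ k.1 / p := by
    by_contra hc
    push Not at hc
    have : p * (k.1 / p) ≤ i * p := by nlinarith
    omega
  apply hdown (k.1 / p - i)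
  have : r.1 + i * p + (k.1 / p - i) * p = k.1 := by
    have h2 : i * p + (k.1 / p - i) * p = p * (k.1 / p) := by
      rw [← Nat.add_mul, Nat.add_sub_cancel' hle, Nat.mul_comm]
    omega
  rw [this]
  exact k.2

end BWDaux

open BWDaux in
theorem pf_BWD (h1 : T_SAME) (h2 : T_ITER) (h3 : T_FIX) : T_BWD := by
  intro S B _ _ Y mw L ρ br n hC hG z hz
  classical
  choose b hb using hz
  have hV := V_go Y b z hb
  have hVl := V_len b
  -- (1)
  have one : ∀ k l p, V b (k + p) n = V b (l + p) n → V b k p = V b l p ∧ V b k n = V b l n := by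
    intro k l p he
    have a1 := hV n (k + p)
    have a2 := hV n (l + p)
    rw [← he] at a2
    obtain ⟨y₁', g⟩ := h1 S B Y mw L ρ br n hC hG _ (hVl n (k + p)) _ _ _ _ a1 a2 (V b k p) _
      (hV p k)
    have e1 : V b k p = V b l p := Y.Go_det _ _ _ _ _ (by rw [hVl, hVl]) g (hV p l)
    refine ⟨e1, ?_⟩
    have cat : ∀ m : ℕ, V b (m + n) p ++ V b m n = V b (m + p) n ++ V b m p := by
      intro m
      have g1 : Y.Go (V b (m + n) p ++ V b m n) (z (m + n + p)) (z m) :=
        (Y.Go_append _ _ _ _).2 ⟨_, hV p (m + n), hV n m⟩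
      have g2 : Y.Go (V b (m + p) n ++ V b m p) (z (m + p + n)) (z m) :=
        (Y.Go_append _ _ _ _).2 ⟨_, hV n (m + p), hV p m⟩
      exact (Y.Go_inj _ _ _ _ _ (by simp only [List.length_append, hVl]; ring) g1 g2).1
    have e2 : V b (k + n) p ++ V b k n = V b (l + n) p ++ V b l n := by
      rw [cat k, cat l, he, e1]
    exact (List.append_inj' e2 (by rw [hVl, hVl])).2
  -- (2)
  have hfin : Finite {w : List B // w.length = n} := (List.finite_length_eq B n).to_subtype
  obtain ⟨w, hw⟩ := Finite.exists_infinite_fiber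
    (fun k => (⟨V b k n, hVl n k⟩ : {w : List B // w.length = n}))
  have hinf := Set.infinite_coe_iff.1 hw
  set K := (fun k => (⟨V b k n, hVl n k⟩ : {w : List B // w.length = n})) ⁻¹' {w} with hK
  have hmem : ∀ k, k ∈ K ↔ V b k n = w.1 := by
    intro k
    simp only [hK, mem_preimage, mem_singleton_iff]
    exact ⟨fun h => congrArg Subtype.val h, fun h => Subtype.ext h⟩
  obtain ⟨k₁, hk₁⟩ := hinf.nonempty
  obtain ⟨k₂, hk₂, hlt⟩ := hinf.exists_gt k₁
  obtain ⟨p, rfl⟩ : ∃ p, k₂ = k₁ + p := ⟨k₂ - k₁, by omega⟩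
  have hp : 0 < p := by omega
  obtain ⟨r, hr⟩ := residue K hinf p hp (by
    intro k hk
    rw [hmem] at hk hk₁ hk₂ ⊢
    rw [(one k k₁ p (hk.trans hk₂.symm)).2, hk₁])
  have hr' : ∀ i : ℕ, V b (r + i * p) n = w.1 := fun i => (hmem _).1 (hr i)
  -- (3)
  set u := V b r p with hu
  have hul : u.length = p := hVl _ _
  have hune : u ≠ [] := by
    intro h; rw [h] at hul; simp at hul; omega
  have hui : ∀ i : ℕ, Y.Go u (z (r + (i + 1) * p)) (z (r + i * p)) := by
    intro i
    have e : V b (r + i * p) p = V b r p := by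
      apply (one _ _ p _).1
      have e1 : r + i * p + p = r + (i + 1) * p := by ring
      have e2 : r + p = r + 1 * p := by ring
      rw [e1, e2, hr', hr']
    have := hV p (r + i * p)
    rw [e] at this
    have e1 : r + i * p + p = r + (i + 1) * p := by ring
    rw [e1] at this
    exact this
  have g1 : Y.Go w.1 (z (r + p + n)) (z (r + p)) := by
    have h := hr' 1
    rw [one_mul] at h
    rw [← h]
    exact hV n (r + p)
  have g2 : Y.Go u (z (r + p)) (z r) := hV p r
  have g3 : Y.Go w.1 (z (r + n)) (z r) := by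
    have h := hr' 0
    rw [zero_mul, add_zero] at h
    rw [← h]
    exact hV n r
  obtain ⟨x, hx⟩ := h3 S B Y mw L ρ br n hC hG w.1 w.2 u hune _ _ _ _ g1 g2 g3
  obtain ⟨hs, hlt1, -⟩ := h2 S B Y mw L ρ br n hC hG w.1 w.2 u hune _ _ _ _ g1 g2 g3
  have hfix := Y.Go_val _ _ _ hx
  simp only at hfix
  have hval : ∀ i : ℕ, (z r).2 - x = Y.wal u ^ i * ((z (r + i * p)).2 - x) := by
    intro i
    induction i with
    | zero => simp
    | succ i ih =>
      have a := Y.Go_val _ _ _ (hui i)
      rw [ih, a, pow_succ]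
      linear_combination - (Y.wal u ^ i) * hfix
  have hbd : ∀ i : ℕ, |(z (r + i * p)).2 - x| ≤ 1 + |x| := by
    intro i
    have := (Y.Go_mem _ _ _ (hui i) hune).2
    calc |(z (r + i * p)).2 - x| ≤ |(z (r + i * p)).2| + |x| := abs_sub _ _
      _ ≤ 1 + |x| := by rw [abs_of_pos this.1]; linarith [this.2]
  have hzx : (z r).2 = x := by
    have hpos := (Y.wal_pos u).le
    have ht : Filter.Tendsto (fun i : ℕ => Y.wal u ^ i * (1 + |x|)) Filter.atTop (nhds 0) := by
      have := (tendsto_pow_atTop_nhds_zero_of_lt_one hpos hlt1).mul_const (1 + |x|)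
      simpa using this
    have hle : |(z r).2 - x| ≤ 0 := by
      refine ge_of_tendsto' ht ?_
      intro i
      rw [hval i, abs_mul, abs_of_nonneg (pow_nonneg hpos i)]
      exact mul_le_mul_of_nonneg_left (hbd i) (pow_nonneg hpos i)
    have := abs_nonpos_iff.1 hle
    linarith
  have hur : Y.Go u (z r) (z r) := by
    have e : ((z (r + p)).1, x) = z r := Prod.ext hs.symm hzx.symm
    rw [e] at hx
    exact hx
  -- (4)
  have hU := Go_rep Y u (z r) hur (r + 1)
  have hUl := len_rep u (r + 1)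
  rw [hul] at hUl
  set U := (List.replicate (r + 1) u).flatten with hUdef
  have hlen : r + 1 ≤ U.length := by rw [hUl]; nlinarith
  have e : U = U.take r ++ U.drop r := (List.take_append_drop _ _).symm
  rw [e, Sys.Go_append] at hU
  obtain ⟨y', c1, c2⟩ := hU
  have c3 := hV r 0
  rw [zero_add] at c3
  have e1 : U.take r = V b 0 r := Y.Go_det _ _ _ _ _
    (by rw [List.length_take, hVl]; omega) c1 c3
  rw [e1] at c1
  have e2 : y' = z 0 := Y.Go_fun _ _ _ _ c1 c3
  rw [e2] at c2
  refine ⟨U.drop r ++ V b 0 r, ?_, (Y.Go_append _ _ _ _).2 ⟨_, c2, c3⟩⟩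
  intro h
  have : (U.drop r ++ V b 0 r).length = 0 := by rw [h]; rfl
  rw [List.length_append, List.length_drop] at this
  omega

end DS
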