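import Pool.Agent.H8.DS.TarA

namespace DS

open Set

namespace FINaux

variable {S B : Type}

/-- The end slit of a nonempty word. -/
theorem Go_end (Y : Sys S B) (w : List B) (hw : w ≠ []) (y y' z z' : S × ℝ)
    (h : Y.Go w y y') (h' : Y.Go w z z') : y'.1 = z'.1 := by
  induction w generalizing y z with
  | nil => exact absurd rfl hw
  | cons b w ih =>
    obtain ⟨_, _, h3⟩ := h
    obtain ⟨_, _, h3'⟩ := h'
    by_cases hw' : w = []
    · subst hw'; simp only [Sys.Go] at h3 h3'; subst h3; subst h3'; rfl
    · exact ih hw' _ _ h3 h3'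

theorem Go_rep (Y : Sys S B) (w : List B) (y : S × ℝ) (h : Y.Go w y y) (k : ℕ) :
    Y.Go (List.replicate k w).flatten y y := by
  induction k with
  | zero => simp [Sys.Go]
  | succ k ih =>
    rw [List.replicate_succ, List.flatten_cons, Sys.Go_append]
    exact ⟨y, h, ih⟩

theorem len_rep (w : List B) (k : ℕ) : (List.replicate k w).flatten.length = k * w.length := by
  induction k with
  | zero => simp
  | succ k ih => rw [List.replicate_succ, List.flatten_cons, List.length_append, ih]; ring

theorem past (Y : Sys S B) (n : ℕ) (y : S × ℝ) (h : ∃ w : List B, w ≠ [] ∧ Y.Go w y y) :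
    ∃ w : List B, w.length = n ∧ ∃ z, Y.Go w z y := by
  obtain ⟨w, hw, hgo⟩ := h
  have h1 : 1 ≤ w.length := List.length_pos_of_ne_nil hw
  have hgo' := Go_rep Y w y hgo n
  have hlen := len_rep w n
  set u := (List.replicate n w).flatten with hu
  have hn : n ≤ u.length := by rw [hlen]; nlinarith
  have e : u = u.take (u.length - n) ++ u.drop (u.length - n) := (List.take_append_drop _ _).symm
  rw [e, Sys.Go_append] at hgo'
  obtain ⟨z, _, hz⟩ := hgo'
  exact ⟨u.drop (u.length - n), by rw [List.length_drop]; omega, z, hz⟩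

end FINaux

open FINaux in
theorem pf_FIN (h1 : T_SAME) (h2 : T_ITER) (h3 : T_NEXT) : T_FIN := by
  intro S B _ _ Y mw L ρ br n hC hG
  classical
  have key : ∀ (w : List B) (z y z' y' : S × ℝ), w.length = n → Y.Go w z y → Y.Go w z' y' →
      (∃ w₀ : List B, w₀ ≠ [] ∧ Y.Go w₀ y y) → (∃ w₀ : List B, w₀ ≠ [] ∧ Y.Go w₀ y' y') →
      y = y' := by
    rintro w z y z' y' hw hz hz' ⟨w₀, hw₀, hgo⟩ ⟨w₀', hw₀', hgo'⟩
    have l1 : 1 ≤ w₀.length := List.length_pos_of_ne_nil hw₀
    have l2 : 1 ≤ w₀'.length := List.length_pos_of_ne_nil hw₀'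
    have gv := Go_rep Y w₀ y hgo w₀'.length
    have gv' := Go_rep Y w₀' y' hgo' w₀.length
    have lv := len_rep w₀ w₀'.length
    have lv' := len_rep w₀' w₀.length
    set v := (List.replicate w₀'.length w₀).flatten with hv
    set v' := (List.replicate w₀.length w₀').flatten with hv'
    obtain ⟨y₁', g1⟩ := h1 S B Y mw L ρ br n hC hG w hw z y z' y' hz hz' v y gv
    have e : v = v' := Y.Go_det v v' y' _ _ (by rw [lv, lv']; ring) g1 gv'
    rw [← e] at gv'
    have hvne : v ≠ [] := by
      intro h
      rw [h] at lv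
      simp only [List.length_nil] at lv
      have : 0 < w₀'.length * w₀.length := Nat.mul_pos l2 l1
      omega
    have hn : 0 < n := by
      cases hvc : v with
      | nil => exact absurd hvc hvne
      | cons b r =>
        rw [hvc] at gv
        exact (h3 S B Y mw L ρ br n hC hG w hw z y hz b gv.1 gv.2.1).1
    have hwne : w ≠ [] := by
      intro h; subst h; simp at hw; omega
    have e1 : y.1 = y'.1 := Go_end Y w hwne _ _ _ _ hz hz'
    have hlt := (h2 S B Y mw L ρ br n hC hG w hw v hvne z y z y hz gv hz).2.1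
    have a1 := Y.Go_val v _ _ gv
    have a2 := Y.Go_val v _ _ gv'
    have e2 : y.2 = y'.2 := by
      have : (1 - Y.wal v) * (y.2 - y'.2) = 0 := by linear_combination a1 - a2
      rcases mul_eq_zero.1 this with h | h
      · linarith
      · linarith
    exact Prod.ext e1 e2
  have hfin : Finite {w : List B // w.length = n} := (List.finite_length_eq B n).to_subtype
  have hch : ∀ y : {y : S × ℝ | ∃ w : List B, w ≠ [] ∧ Y.Go w y y},
      ∃ w : List B, w.length = n ∧ ∃ z, Y.Go w z y := fun y => past Y n y.1 y.2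
  choose f hf z hz using hch
  have : Finite {y : S × ℝ | ∃ w : List B, w ≠ [] ∧ Y.Go w y y} := by
    refine Finite.of_injective (fun y => (⟨f y, hf y⟩ : {w : List B // w.length = n})) ?_
    intro y y' h
    simp only [Subtype.mk.injEq] at h
    refine Subtype.ext (key (f y) (z y) y.1 (z y') y'.1 (hf y) (hz y) ?_ y.2 y'.2)
    rw [h]
    exact hz y'
  exact this

end DS
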