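import Pool.Agent.H8.DS.TarA

namespace DS

open Set

namespace X1aux

variable {S B : Type}

/-- The end slit of a nonempty word. -/
theorem Go_end (Y : Sys S B) (w : List B) (hw : w ≠ []) (y y' z z' : S × ℝ)
    (h : Y.Go w y y') (h' : Y.Go w z z') : y'.1 = z'.1 := by
  induction w generalizing y z with
  | nil => exact absurd rfl hw
  | cons b w ih =>
    obtain ⟨_, _, h3⟩ := h
    obtain ⟨_, _, h3'⟩ := h'
    by_cases hw' : w = []
    · subst hw'; simp only [Sys.Go] at h3 h3'; subst h3; subst h3'; rfl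
    · exact ih hw' _ _ h3 h3'

/-- The starting slit of a nonempty word. -/
theorem Go_start (Y : Sys S B) (w : List B) (hw : w ≠ []) (y y' z z' : S × ℝ)
    (h : Y.Go w y y') (h' : Y.Go w z z') : y.1 = z.1 := by
  cases w with
  | nil => exact absurd rfl hw
  | cons b w => exact h.1.symm.trans h'.1

/-- The word has an interval of starting points of weighted length at least `l`. -/
def P (Y : Sys S B) (mw : S → ℝ) (ex : S → Prop) (w : List B) (l : ℝ) : Prop :=
  ∃ s x x', x < x' ∧ l ≤ (x' - x) * mw s ∧ ∀ z ∈ Ioo x x', ∃ y₁, Y.Go w (s, z) y₁ ∧ ex y₁.1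

theorem step (Y : Sys S B) (mw : S → ℝ) (fl : B → Prop) (ex : S → Prop) (N : ℕ)
    (hm : ∀ s, 0 < mw s)
    (hN : ∀ (b : B) (w : List B), N ≤ w.length → fl b → (∀ b' ∈ w, fl b') →
    ∀ y y', Y.Go (b :: w) y y' → ex y'.1 → ∀ x x' : ℝ, x < x' →
    (∀ z ∈ Ioo x x', ∃ y₁, Y.Go w (Y.tgt b, z) y₁) →
    (∃ z ∈ Ioo x x', ∃ z', z' ∈ Y.D b ∧ z = Y.al b * z' + Y.c b) →
    ∃ v v' : ℝ, (v' - v) * mw (Y.src b) = (x' - x) * mw (Y.tgt b) ∧
      ∀ z ∈ Ioo v v', ∃ y₁, Y.Go (b :: w) (Y.src b, z) y₁)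
    (b : B) (w : List B) (hw : w ≠ []) (hl : N ≤ w.length) (hfb : fl b)
    (hfw : ∀ b' ∈ w, fl b') {l l' : ℝ} (h1 : P Y mw ex (b :: w) l') (h2 : P Y mw ex w l) :
    P Y mw ex (b :: w) l := by
  obtain ⟨s, u, u', hu, -, h1⟩ := h1
  obtain ⟨s', x, x', hx, hlx, h2⟩ := h2
  have ha := Y.al_pos b
  -- slits
  obtain ⟨y0, hy0, hex0⟩ := h1 ((u + u') / 2) ⟨by linarith, by linarith⟩
  obtain ⟨y1, hy1, hex1⟩ := h2 ((x + x') / 2) ⟨by linarith, by linarith⟩
  have es' : Y.tgt b = s' := Go_start Y w hw _ _ _ _ hy0.2.2 hy1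
  subst es'
  -- the domain of `w`
  have hord := Y.Go_ord w (Y.tgt b)
  set Dw := {z | ∃ y', Y.Go w (Y.tgt b, z) y'} with hDw
  have hxD : Ioo x x' ⊆ Dw := fun z hz => by
    obtain ⟨y₁, hy, _⟩ := h2 z hz
    exact ⟨y₁, hy⟩
  have huD : Ioo (Y.al b * u + Y.c b) (Y.al b * u' + Y.c b) ⊆ Dw := by
    intro z hz
    have : (z - Y.c b) / Y.al b ∈ Ioo u u' := by
      constructor
      · rw [lt_div_iff₀ ha]; linarith [hz.1]
      · rw [div_lt_iff₀ ha]; linarith [hz.2]
    obtain ⟨y₁, hy, _⟩ := h1 _ this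
    obtain ⟨_, _, h3⟩ := hy
    refine ⟨y₁, ?_⟩
    have e : Y.al b * ((z - Y.c b) / Y.al b) + Y.c b = z := by field_simp; ring
    simp only [e] at h3
    exact h3
  have huu : Y.al b * u + Y.c b < Y.al b * u' + Y.c b := by nlinarith
  set p := Y.al b * u + Y.c b with hp
  set p' := Y.al b * u' + Y.c b with hp'
  have hbig : Ioo (min x p) (max x' p') ⊆ Dw := by
    intro z hz
    have hlow : ∃ a ∈ Dw, a ≤ z := by
      rcases min_lt_iff.1 hz.1 with h | h
      · by_cases hzx : z < x'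
        · exact ⟨z, hxD ⟨h, hzx⟩, le_refl _⟩
        · exact ⟨(x + x') / 2, hxD ⟨by linarith, by linarith⟩, by push Not at hzx; linarith⟩
      · by_cases hzx : z < p'
        · exact ⟨z, huD ⟨h, hzx⟩, le_refl _⟩
        · exact ⟨(p + p') / 2, huD ⟨by linarith, by linarith⟩, by push Not at hzx; linarith⟩
    have hup : ∃ a ∈ Dw, z ≤ a := by
      rcases lt_max_iff.1 hz.2 with h | h
      · by_cases hzx : x < z
        · exact ⟨z, hxD ⟨hzx, h⟩, le_refl _⟩
        · exact ⟨(x + x') / 2, hxD ⟨by linarith, by linarith⟩, by push Not at hzx; linarith⟩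
      · by_cases hzx : p < z
        · exact ⟨z, huD ⟨hzx, h⟩, le_refl _⟩
        · exact ⟨(p + p') / 2, huD ⟨by linarith, by linarith⟩, by push Not at hzx; linarith⟩
    obtain ⟨a, haD, haz⟩ := hlow
    obtain ⟨c, hcD, hcz⟩ := hup
    exact hord.out haD hcD ⟨haz, hcz⟩
  have hlt : min x p < max x' p' := lt_of_le_of_lt (min_le_left _ _)
    (lt_of_lt_of_le hx (le_max_left _ _))
  obtain ⟨v, v', hv, hgo⟩ := hN b w hl hfb hfw _ _ hy0 hex0 (min x p) (max x' p') hlt
    (fun z hz => hbig hz)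
    ⟨Y.al b * ((u + u') / 2) + Y.c b, ⟨min_lt_iff.2 (Or.inr (by rw [hp]; nlinarith)),
      lt_max_iff.2 (Or.inr (by rw [hp']; nlinarith))⟩, (u + u') / 2, hy0.2.1, rfl⟩
  have hwid : x' - x ≤ max x' p' - min x p := by
    have := min_le_left x p
    have := le_max_left x' p'
    linarith
  have hvv : 0 < (v' - v) * mw (Y.src b) := by
    rw [hv]
    exact mul_pos (by linarith) (hm _)
  refine ⟨Y.src b, v, v', ?_, ?_, ?_⟩
  · by_contra hc
    push Not at hc
    nlinarith [mul_nonneg (sub_nonneg.2 hc) (hm (Y.src b)).le]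
  · rw [hv]
    exact hlx.trans (mul_le_mul_of_nonneg_right hwid (hm _).le)
  · intro z hz
    obtain ⟨y₁, hy₁⟩ := hgo z hz
    refine ⟨y₁, hy₁, ?_⟩
    rw [Go_end Y (b :: w) (by simp) _ _ _ _ hy₁ hy0]
    exact hex0

end X1aux

open X1aux in
theorem pf_X1 (h1 : T_XFIN) (h2 : T_XTAIL) (h3 : T_XOPEN) : T_X1 := by
  intro S B _ _ Y mw fl ex hm hsl hfl hst
  classical
  by_contra hcon
  push Not at hcon
  obtain ⟨N₀, hN₀⟩ := h2 S B Y mw fl ex hm hsl hfl
  -- X-words of all lengths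
  have hX : ∀ n : ℕ, ∃ w : List B, n ≤ w.length ∧ (∀ b ∈ w, fl b) ∧ ∃ l, 0 < l ∧
      P Y mw ex w l := by
    intro n
    obtain ⟨w, hw, hf, y, y', hgo, hex⟩ := hcon n
    obtain ⟨x, x', hx, w', hl, hf', hz⟩ := h3 S B Y fl hst w hf y y' hgo
    refine ⟨w', by omega, hf', (x' - x) * mw y.1, mul_pos (by linarith) (hm _),
      y.1, x, x', hx, le_refl _, ?_⟩
    intro z hzz
    obtain ⟨y₁, hy₁, he⟩ := hz z hzz
    exact ⟨y₁, hy₁, by rw [he]; exact hex⟩
  set N := max N₀ 1 with hN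
  -- tails of X-words
  have htail : ∀ (b : B) (w : List B) (l : ℝ), 0 < l → P Y mw ex (b :: w) l →
      ∃ l', 0 < l' ∧ P Y mw ex w l' := by
    rintro b w l _ ⟨s, x, x', hx, _, hz⟩
    have ha := Y.al_pos b
    refine ⟨((Y.al b * x' + Y.c b) - (Y.al b * x + Y.c b)) * mw (Y.tgt b),
      mul_pos (by nlinarith) (hm _), Y.tgt b, _, _, by nlinarith, le_refl _, ?_⟩
    intro z hzz
    have : (z - Y.c b) / Y.al b ∈ Ioo x x' := by
      constructor
      · rw [lt_div_iff₀ ha]; linarith [hzz.1]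
      · rw [div_lt_iff₀ ha]; linarith [hzz.2]
    obtain ⟨y₁, hy, he⟩ := hz _ this
    obtain ⟨_, _, h3⟩ := hy
    refine ⟨y₁, ?_, he⟩
    have e : Y.al b * ((z - Y.c b) / Y.al b) + Y.c b = z := by field_simp; ring
    simp only [e] at h3
    exact h3
  -- a lower bound for the length `N`
  have hfin : {w : List B | w.length = N}.Finite := List.finite_length_eq B N
  have hmin : ∃ δ > 0, ∀ w : List B, w.length = N → (∃ l, 0 < l ∧ P Y mw ex w l) →
      P Y mw ex w δ := by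
    have hch : ∀ w : List B, ∃ δ > 0, (∃ l, 0 < l ∧ P Y mw ex w l) → P Y mw ex w δ := by
      intro w
      by_cases h : ∃ l, 0 < l ∧ P Y mw ex w l
      · obtain ⟨l, hl, hP⟩ := h
        exact ⟨l, hl, fun _ => hP⟩
      · exact ⟨1, one_pos, fun h' => absurd h' h⟩
    choose d hd hP using hch
    obtain ⟨δ, hδ, hle⟩ : ∃ δ > 0, ∀ w ∈ {w : List B | w.length = N}, δ ≤ d w := by
      rcases Set.eq_empty_or_nonempty {w : List B | w.length = N} with he | hne
      · exact ⟨1, one_pos, by rw [he]; simp⟩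
      · obtain ⟨w₀, _, hw₀⟩ := Set.exists_min_image _ d hfin hne
        exact ⟨d w₀, hd _, hw₀⟩
    refine ⟨δ, hδ, ?_⟩
    intro w hw hex
    obtain ⟨s, x, x', hx, hl, hz⟩ := hP w hex
    exact ⟨s, x, x', hx, (hle w hw).trans hl, hz⟩
  obtain ⟨δ, hδ, hmin⟩ := hmin
  have hall : ∀ (k : ℕ) (w : List B), w.length = N + k → (∀ b ∈ w, fl b) →
      (∃ l, 0 < l ∧ P Y mw ex w l) → P Y mw ex w δ := by
    intro k
    induction k with
    | zero => intro w hw _ h; exact hmin w (by simpa using hw) h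
    | succ k ih =>
      intro w hw hf h
      cases w with
      | nil => simp at hw
      | cons b w =>
        obtain ⟨l, hl, hP⟩ := h
        have hlen : w.length = N + k := by simp only [List.length_cons] at hw; omega
        have hw0 : w ≠ [] := by
          intro h; subst h; simp only [List.length_nil] at hlen; omega
        have hfw : ∀ b' ∈ w, fl b' := fun b' hb' => hf b' (List.mem_cons_of_mem _ hb')
        exact step Y mw fl ex N₀ hm hN₀ b w hw0 (by omega) (hf b (by simp)) hfw hP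
          (ih w hlen hfw (htail b w l hl hP))
  -- the slits
  have hS : Nonempty S := by
    obtain ⟨_, _, _, y, _⟩ := hcon 0
    exact ⟨y.1⟩
  obtain ⟨s₀, hs₀⟩ := Finite.exists_max mw
  have hF := h1 S B Y fl ex hfl (δ / mw s₀) (div_pos hδ (hm _))
  obtain ⟨M, hM⟩ := (hF.image List.length).bddAbove
  obtain ⟨w, hw, hf, hl⟩ := hX (N + M + 1)
  have hPw := hall (w.length - N) w (by omega) hf hl
  obtain ⟨s, x, x', hx, hlx, hz⟩ := hPw
  have : w.length ≤ M := by
    refine hM ⟨w, ⟨?_, hf, s, x, x', ?_, hz⟩, rfl⟩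
    · intro h; subst h; simp at hw
    · rw [div_le_iff₀ (hm _)]
      exact hlx.trans (mul_le_mul_of_nonneg_left (hs₀ s) (by linarith))
  omega

end DS
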