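import Pool.Agent.H8.DS.TarA

namespace DS

open Set

namespace XFINaux

theorem key {δ x x' y y' : ℝ} (hδ : 0 < δ) (h1 : δ ≤ x' - x) (h2 : δ ≤ y' - y) (hx : 0 ≤ x)
    (hy : 0 ≤ y)
    (he : ⌊(x + x') / (2 * δ)⌋₊ = ⌊(y + y') / (2 * δ)⌋₊) :
    ∃ z, z ∈ Ioo x x' ∧ z ∈ Ioo y y' := by
  have hd : (0 : ℝ) < 2 * δ := by positivity
  have a1 := Nat.floor_le (show 0 ≤ (x + x') / (2 * δ) by apply div_nonneg <;> linarith)
  have a2 := Nat.lt_floor_add_one ((x + x') / (2 * δ))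
  have b1 := Nat.floor_le (show 0 ≤ (y + y') / (2 * δ) by apply div_nonneg <;> linarith)
  have b2 := Nat.lt_floor_add_one ((y + y') / (2 * δ))
  rw [he] at a1 a2
  rw [le_div_iff₀ hd] at a1 b1
  rw [div_lt_iff₀ hd] at a2 b2
  refine ⟨(x + x' + y + y') / 4, ⟨by nlinarith, by nlinarith⟩, ⟨by nlinarith, by nlinarith⟩⟩

end XFINaux

theorem pf_XFIN (h1 : T_XDISJ) : T_XFIN := by
  intro S B _ Y fl ex hfl δ hδ
  classical
  set A := {w : List B | w ≠ [] ∧ (∀ b ∈ w, fl b) ∧ ∃ s x x', δ ≤ x' - x ∧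
    ∀ z ∈ Ioo x x', ∃ y, Y.Go w (s, z) y ∧ ex y.1} with hA
  have hch : ∀ w : A, ∃ s x x', δ ≤ x' - x ∧
    ∀ z ∈ Ioo x x', ∃ y, Y.Go w.1 (s, z) y ∧ ex y.1 := fun w => w.2.2.2
  choose s x x' hd hz using hch
  have hb : ∀ w : A, 0 ≤ x w ∧ x' w ≤ 1 := by
    intro w
    have hlt : x w < x' w := by linarith [hd w]
    have hsub : Ioo (x w) (x' w) ⊆ Icc (0 : ℝ) 1 := by
      intro z hzz
      obtain ⟨y, hy, _⟩ := hz w z hzz
      have := (Y.Go_mem w.1 _ _ hy w.2.1).1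
      exact ⟨this.1.le, this.2.le⟩
    have hcl : Icc (x w) (x' w) ⊆ Icc (0 : ℝ) 1 := by
      rw [← closure_Ioo hlt.ne]
      exact closure_minimal hsub isClosed_Icc
    exact ⟨(hcl ⟨le_refl _, hlt.le⟩).1, (hcl ⟨hlt.le, le_refl _⟩).2⟩
  have : Finite A := by
    set N := ⌊1 / δ⌋₊ + 1 with hN
    let f : A → S × Fin N := fun w => (s w, ⟨⌊(x w + x' w) / (2 * δ)⌋₊, by
      rw [hN, Nat.lt_succ_iff]
      apply Nat.floor_le_floor
      rw [div_le_div_iff₀ (by positivity) hδ]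
      have := (hb w).1
      have := (hb w).2
      nlinarith [hd w]⟩)
    refine Finite.of_injective f ?_
    intro w w' hww
    simp only [f, Prod.mk.injEq, Fin.mk.injEq] at hww
    obtain ⟨e1, e2⟩ := hww
    obtain ⟨z, z1, z2⟩ := XFINaux.key hδ (hd w) (hd w') (hb w).1 (hb w').1 e2
    obtain ⟨y, hy, hey⟩ := hz w z z1
    obtain ⟨y2, hy2, hey2⟩ := hz w' z z2
    rw [← e1] at hy2
    exact Subtype.ext (h1 S B Y fl ex hfl w.1 w'.1 w.2.2.1 w'.2.2.1 _ _ _ hy hey hy2 hey2)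
  exact this

end DS
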