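import Pool.Agent.H8.DS.TarA

namespace DS

open Set

namespace XTAILaux

/-- The end slit of a nonempty word. -/
theorem Go_end {S B : Type} (Y : Sys S B) (w : List B) (hw : w ≠ []) (y y' z z' : S × ℝ)
    (h : Y.Go w y y') (h' : Y.Go w z z') : y'.1 = z'.1 := by
  induction w generalizing y z with
  | nil => exact absurd rfl hw
  | cons b w ih =>
    obtain ⟨_, _, h3⟩ := h
    obtain ⟨_, _, h3'⟩ := h'
    by_cases hw' : w = []
    · subst hw'; simp only [Sys.Go] at h3 h3'; subst h3; subst h3'; rfl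
    · exact ih hw' _ _ h3 h3'

/-- An open interval that meets an interval and avoids its end points is inside. -/
theorem sub_of_avoid {A : Set ℝ} (hA : A.OrdConnected) (hA1 : A ⊆ Ioo (0 : ℝ) 1) {x x' : ℝ}
    (h0 : sInf A ∉ Ioo x x') (h1 : sSup A ∉ Ioo x x') {z : ℝ} (hz : z ∈ Ioo x x')
    (hzA : z ∈ A) : Ioo x x' ⊆ A := by
  intro y hy
  by_contra hyA
  have hb : BddBelow A := ⟨0, fun a ha => (hA1 ha).1.le⟩
  have hb' : BddAbove A := ⟨1, fun a ha => (hA1 ha).2.le⟩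
  rcases lt_or_ge y z with hlt | hge
  · apply h0
    have e1 : sInf A ≤ z := csInf_le hb hzA
    have e2 : y ≤ sInf A := by
      refine le_csInf ⟨z, hzA⟩ ?_
      intro a ha
      by_contra hay
      push Not at hay
      exact hyA (hA.out ha hzA ⟨hay.le, hlt.le⟩)
    exact ⟨lt_of_lt_of_le hy.1 e2, lt_of_le_of_lt e1 hz.2⟩
  · apply h1
    have e1 : z ≤ sSup A := le_csSup hb' hzA
    have e2 : sSup A ≤ y := by
      refine csSup_le ⟨z, hzA⟩ ?_
      intro a ha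
      by_contra hay
      push Not at hay
      exact hyA (hA.out hzA ha ⟨hge, hay.le⟩)
    exact ⟨lt_of_lt_of_le hz.1 e1, lt_of_le_of_lt e2 hy.2⟩

end XTAILaux

theorem pf_XTAIL (h1 : T_XDISJ) : T_XTAIL := by
  intro S B _ _ Y mw fl ex hm hsl hfl
  classical
  let Im : B → Set ℝ := fun b => (fun x => Y.al b * x + Y.c b) '' Y.D b
  let f : B → Bool → ℝ := fun b i => if i then sInf (Im b) else sSup (Im b)
  let W : B × Bool → Set (List B) := fun p => {w | (∀ b' ∈ w, fl b') ∧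
    ∃ y₁, Y.Go w (Y.tgt p.1, f p.1 p.2) y₁ ∧ ex y₁.1}
  have hW : ∀ p, (W p).Finite := by
    intro p
    apply Set.Subsingleton.finite
    rintro w ⟨hw, y₁, hy, he⟩ w' ⟨hw', y₂, hy', he'⟩
    exact h1 S B Y fl ex hfl w w' hw hw' _ _ _ hy he hy' he'
  obtain ⟨M, hM⟩ := ((Set.finite_iUnion hW).image List.length).bddAbove
  have hM' : ∀ p w, w ∈ W p → w.length ≤ M := fun p w hw =>
    hM ⟨w, mem_iUnion.2 ⟨p, hw⟩, rfl⟩
  refine ⟨M + 1, ?_⟩
  intro b w hN hb hw y y' hgo hex x x' _ hIoo hmeet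
  have hwne : w ≠ [] := by
    intro h; subst h; simp at hN
  have hIm : (Im b).OrdConnected := (Y.rev).ord b
  have hIm1 : Im b ⊆ Ioo (0 : ℝ) 1 := by
    rintro _ ⟨z, hz, rfl⟩
    exact (Y.dom b z hz).2
  have hav : ∀ i, f b i ∉ Ioo x x' := by
    intro i hi
    obtain ⟨y₁, hy₁⟩ := hIoo _ hi
    obtain ⟨_, _, hgo'⟩ := hgo
    have e := XTAILaux.Go_end Y w hwne _ _ _ _ hgo' hy₁
    have := hM' (b, i) w ⟨hw, y₁, hy₁, by rw [← e]; exact hex⟩
    omega
  obtain ⟨z, hz, z', hz', rfl⟩ := hmeet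
  have hsub : Ioo x x' ⊆ Im b :=
    XTAILaux.sub_of_avoid hIm hIm1 (hav true) (hav false) hz ⟨z', hz', rfl⟩
  have ha := Y.al_pos b
  refine ⟨(x - Y.c b) / Y.al b, (x' - Y.c b) / Y.al b, ?_, ?_⟩
  · rw [← hsl b hb]; field_simp; ring
  · rintro u ⟨hu1, hu2⟩
    rw [div_lt_iff₀ ha] at hu1
    rw [lt_div_iff₀ ha] at hu2
    have hu : Y.al b * u + Y.c b ∈ Ioo x x' := ⟨by linarith, by linarith⟩
    obtain ⟨u', hu', he⟩ := hsub hu
    have : u' = u := by
      simp only at he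
      have h : Y.al b * u' = Y.al b * u := by linarith
      exact mul_left_cancel₀ ha.ne' h
    subst this
    obtain ⟨y₁, hy₁⟩ := hIoo _ hu
    exact ⟨y₁, rfl, hu', hy₁⟩

end DS
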